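import Pool.Agent.L5helper7.IP.Short

/-!
# All types at once in short intervals
-/

set_option autoImplicit false

open Finset Filter Topology

namespace Pool.Agent.L5helper7.IP

open Pool.Agent.H197R2.PG (PI)
open Pool.Agent.TH665.GP (PI_prime)
open Pool.Agent.Y886.UT (f2 Rep f2_ge log_of_f2 PI_mono rep_of nlog_le abs_le_of_mul_self)

/-- the largest order of the types for `n ≤ x` -/
def oA (x : ℕ) : ℕ := Nat.sqrt (Nat.log 2 x)
/-- the largest smaller order -/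
def oB (x : ℕ) : ℕ := Nat.sqrt (Nat.log 2 x / 2)

lemma types {x n p q : ℕ} (hn : n ≤ x) (hp : PI (oA x) p) (hq : PI (oB x) q) (h : p + q = 2 * n) (hne : p ≠ q) :
    ∀ a b : ℕ, f2 a b ≤ n → Rep a b (2 * n) := by
  intro a b hf
  obtain ⟨k1, k2, k3⟩ := f2_ge a b
  have haA : a ≤ oA x := by
    unfold oA
    rw [Nat.le_sqrt]
    have := log_of_f2 hn hf k1
    rwa [pow_two] at this
  have hbA : b ≤ oA x := by
    unfold oA
    rw [Nat.le_sqrt]
    have := log_of_f2 hn hf k2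
    rwa [pow_two] at this
  have hmin : min a b ≤ oB x := by
    unfold oB
    rw [Nat.le_sqrt]
    have h6 := log_of_f2 hn hf k3
    rw [pow_two] at h6
    omega
  rcases le_total a b with hab | hab
  · rw [min_eq_left hab] at hmin
    exact rep_of (PI_mono hmin hq) (PI_mono hbA hp) (by omega) (by omega)
  · rw [min_eq_right hab] at hmin
    exact rep_of (PI_mono haA hp) (PI_mono hmin hq) (by omega) (by omega)

theorem setup (κ c₀ ε₂ : ℝ) (hκ : 0 ≤ κ) (hc₀ : 0 ≤ c₀) (hε₂ : 0 < ε₂) (hε₂1 : ε₂ ≤ 1) : ∀ᶠ x : ℕ in atTop, 16 ≤ x ∧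
    100 ≤ Real.log x ∧ ∃ l : ℝ, 0 ≤ l ∧ Real.log x + 2 ≤ Real.exp l ∧
      ((oA x : ℝ) + 1) * (l + κ) + c₀ + 10 ≤ ε₂ * Real.log x ∧
      ((oB x : ℝ) + 1) * (l + κ) + c₀ + 10 ≤ ε₂ * Real.log x ∧
      ((oB x : ℝ) + 1) * (l + κ) ≤ √(Real.log x) * Real.log (Real.log x) := by
  have tN : Tendsto (fun N : ℕ => (N : ℝ)) atTop atTop := tendsto_natCast_atTop_atTop
  have tL : Tendsto (fun N : ℕ => Real.log (N : ℝ)) atTop atTop := Real.tendsto_log_atTop.comp tN
  have hev : ∀ᶠ t : ℝ in atTop, 100 ≤ t ∧ 20 * (κ + 1) + 1 ≤ 2 * Real.log t ∧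
      (2 * t + 1) * (2 * Real.log t + 1 + κ) + c₀ + 10 ≤ ε₂ * t ^ 2 := by
    have h1 := Real.isLittleO_log_id_atTop.bound (show (0 : ℝ) < ε₂ / 20 by positivity)
    filter_upwards [eventually_ge_atTop 100, Real.tendsto_log_atTop.eventually_ge_atTop (20 * (κ + 1) + 1), h1,
      eventually_ge_atTop (c₀ + 10), eventually_ge_atTop (2 / ε₂)] with t h1 h2 h3 h4 h5
    have hl : 0 ≤ Real.log t := Real.log_nonneg (by linarith)
    rw [Real.norm_of_nonneg hl] at h3
    simp only [id] at h3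
    rw [Real.norm_of_nonneg (by linarith)] at h3
    refine ⟨h1, by linarith, ?_⟩
    have h6 : 2 * Real.log t + 1 + κ ≤ 3 * Real.log t := by linarith
    have h7 : 2 * t + 1 ≤ 3 * t := by linarith
    have h8 : 2 ≤ t * ε₂ := by
      rwa [div_le_iff₀ hε₂] at h5
    calc (2 * t + 1) * (2 * Real.log t + 1 + κ) + c₀ + 10 ≤ (3 * t) * (3 * Real.log t) + t := by
          have : (2 * t + 1) * (2 * Real.log t + 1 + κ) ≤ (3 * t) * (3 * Real.log t) := by gcongr
          linarith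
      _ = 9 * (t * Real.log t) + t := by ring
      _ ≤ 9 * (t * (ε₂ / 20 * t)) + t := by gcongr
      _ = (9 / 20) * ε₂ * t ^ 2 + t := by ring
      _ ≤ ε₂ * t ^ 2 := by nlinarith
  have tS : Tendsto (fun N : ℕ => √(Real.log (N : ℝ))) atTop atTop := Real.tendsto_sqrt_atTop.comp tL
  filter_upwards [tS.eventually hev, eventually_ge_atTop 16] with x h1 h5
  obtain ⟨e1, e2, e3⟩ := h1
  set L := Real.log (x : ℝ) with hL
  set t := √L with ht
  have hx0 : (0 : ℝ) < x := by exact_mod_cast (by omega : 0 < x)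
  have hL0 : 0 < L := Real.log_pos (by exact_mod_cast (by omega : 1 < x))
  have ht2 : t * t = L := Real.mul_self_sqrt hL0.le
  have ht0 : 0 < t := by linarith
  have hLt : Real.log L = 2 * Real.log t := by
    rw [← ht2, Real.log_mul ht0.ne' ht0.ne']
    ring
  have hlt0 : 0 ≤ Real.log t := Real.log_nonneg (by linarith)
  have hnl := nlog_le (show 1 ≤ x by omega)
  have hlog2 : (0.69 : ℝ) ≤ Real.log 2 := by
    have := Real.log_two_gt_d9
    linarith
  have hNL0 : (0 : ℝ) ≤ Nat.log 2 x := Nat.cast_nonneg _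
  have hAt : (oA x : ℝ) ≤ 2 * t := by
    unfold oA
    have h6 : Nat.sqrt (Nat.log 2 x) * Nat.sqrt (Nat.log 2 x) ≤ Nat.log 2 x := Nat.sqrt_le _
    have h7 : ((Nat.sqrt (Nat.log 2 x) : ℝ)) * (Nat.sqrt (Nat.log 2 x) : ℝ) ≤ Nat.log 2 x := by exact_mod_cast h6
    have h8 : ((Nat.sqrt (Nat.log 2 x) : ℝ)) * (Nat.sqrt (Nat.log 2 x) : ℝ) ≤ (2 * t) * (2 * t) := by nlinarith
    exact abs_le_of_mul_self (by positivity) (by linarith) h8
  have hBt : (oB x : ℝ) ≤ 0.86 * t := by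
    unfold oB
    have h6 : Nat.sqrt (Nat.log 2 x / 2) * Nat.sqrt (Nat.log 2 x / 2) ≤ Nat.log 2 x / 2 := Nat.sqrt_le _
    have h7 : 2 * (Nat.sqrt (Nat.log 2 x / 2) * Nat.sqrt (Nat.log 2 x / 2)) ≤ Nat.log 2 x := by omega
    have h7' : 2 * ((Nat.sqrt (Nat.log 2 x / 2) : ℝ) * (Nat.sqrt (Nat.log 2 x / 2) : ℝ)) ≤ Nat.log 2 x := by
      exact_mod_cast h7
    have h8 : (Nat.sqrt (Nat.log 2 x / 2) : ℝ) * (Nat.sqrt (Nat.log 2 x / 2) : ℝ) ≤ (0.86 * t) * (0.86 * t) := by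
      nlinarith
    exact abs_le_of_mul_self (by positivity) (by linarith) h8
  have hA0 : (0 : ℝ) ≤ oA x := Nat.cast_nonneg _
  have hB0 : (0 : ℝ) ≤ oB x := Nat.cast_nonneg _
  have hl0 : 0 ≤ 2 * Real.log t + 1 / 100 := by linarith
  refine ⟨h5, by nlinarith, 2 * Real.log t + 1 / 100, hl0, ?_, ?_, ?_, ?_⟩
  · have h6 : Real.exp (2 * Real.log t + 1 / 100) = t * t * Real.exp (1 / 100) := by
      rw [Real.exp_add, two_mul, Real.exp_add, Real.exp_log ht0]
    rw [h6, ht2]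
    have h7 : 1 + 1 / 100 ≤ Real.exp (1 / 100) := by
      have := Real.add_one_le_exp (1 / 100 : ℝ)
      linarith
    nlinarith
  · have h6 : ((oA x : ℝ) + 1) * (2 * Real.log t + 1 / 100 + κ) ≤ (2 * t + 1) * (2 * Real.log t + 1 + κ) := by
      apply mul_le_mul (by linarith) (by linarith) (by linarith) (by linarith)
    rw [← ht2]
    nlinarith
  · have h6 : ((oB x : ℝ) + 1) * (2 * Real.log t + 1 / 100 + κ) ≤ (2 * t + 1) * (2 * Real.log t + 1 + κ) := by
      apply mul_le_mul (by linarith) (by linarith) (by linarith) (by linarith)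
    rw [← ht2]
    nlinarith
  · rw [hLt]
    have h6 : ((oB x : ℝ) + 1) * (2 * Real.log t + 1 / 100 + κ) ≤ (0.86 * t + 1) * (1.05 * (2 * Real.log t)) := by
      apply mul_le_mul (by linarith) (by linarith) (by linarith) (by linarith)
    refine h6.trans ?_
    have h7 : (0.86 * t + 1) * (1.05 * (2 * Real.log t)) = (0.903 * t + 1.05) * (2 * Real.log t) := by ring
    rw [h7]
    apply mul_le_mul_of_nonneg_right _ (by linarith)
    linarith

/-- **Many integers in short intervals** -/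
theorem many {θ : ℝ} (h : Hoh θ) {ε : ℝ} (hε : 0 < ε) : ∀ᶠ x : ℕ in atTop, ∀ H : ℕ, (x : ℝ) ^ (θ + ε) ≤ H → 2 * H ≤ x →
    (H : ℝ) * Real.exp (-(√(Real.log x) * Real.log (Real.log x))) ≤
      Set.ncard {n : ℕ | x < n + H ∧ n ≤ x ∧ ∀ a b : ℕ, f2 a b ≤ n → Rep a b (2 * n)} := by
  classical
  obtain ⟨κ, c₀, hκ, hc₀, hshort⟩ := short h
  obtain ⟨hθ0, hθ1, -⟩ := h
  set ε₂ : ℝ := min (min ε (1 - θ)) 1 / 8 with hε₂
  have hε₂0 : 0 < ε₂ := by
    have : 0 < min (min ε (1 - θ)) 1 := lt_min (lt_min hε (by linarith)) one_pos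
    positivity
  have hε₂1 : ε₂ ≤ 1 := by
    have : min (min ε (1 - θ)) 1 ≤ 1 := min_le_right _ _
    rw [hε₂]
    linarith
  have hε₂ε : 8 * ε₂ ≤ ε := by
    have : min (min ε (1 - θ)) 1 ≤ ε := (min_le_left _ _).trans (min_le_left _ _)
    rw [hε₂]
    linarith
  have hε₂θ : 8 * ε₂ ≤ 1 - θ := by
    have : min (min ε (1 - θ)) 1 ≤ 1 - θ := (min_le_left _ _).trans (min_le_right _ _)
    rw [hε₂]
    linarith
  filter_upwards [setup κ c₀ ε₂ hκ hc₀ hε₂0 hε₂1] with x hx H hH1 hH2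
  obtain ⟨hx16, hL100, l, hl0, hl1, hA, hB, hBfin⟩ := hx
  set L := Real.log (x : ℝ) with hL
  have hx0 : (0 : ℝ) < x := by exact_mod_cast (by omega : 0 < x)
  have hlκ : 0 ≤ l + κ := by linarith
  have hlog2 : Real.log 2 ≤ 1 := by
    have := Real.log_two_lt_d9
    linarith
  -- the small prime
  obtain ⟨Y, hY⟩ : ∃ Y, Y = Nat.sqrt x / 2 := ⟨_, rfl⟩
  have hsq4 : 4 ≤ Nat.sqrt x := by
    rw [Nat.le_sqrt]
    omega
  have hY2 : 2 ≤ Y := by omega
  have hYsq : 2 * Y ≤ Nat.sqrt x := by omega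
  have hsqx : Nat.sqrt x * Nat.sqrt x ≤ x := Nat.sqrt_le _
  have hYr2 : (2 : ℝ) ≤ Y := by exact_mod_cast hY2
  have hlogY : L / 2 - 4 ≤ Real.log Y := by
    have h1 : x < (Nat.sqrt x + 1) * (Nat.sqrt x + 1) := Nat.lt_succ_sqrt x
    have h2 : Nat.sqrt x + 1 ≤ 4 * Y := by omega
    have h3 : x ≤ (4 * Y) * (4 * Y) := h1.le.trans (Nat.mul_le_mul h2 h2)
    have h4 : (x : ℝ) ≤ (4 * Y) * (4 * Y) := by exact_mod_cast h3
    have h5 := Real.log_le_log hx0 h4
    rw [Real.log_mul (by positivity) (by positivity), Real.log_mul (by norm_num) (by positivity)] at h5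
    have h6 : Real.log 4 ≤ 2 := by
      have h7 : Real.log 4 = 2 * Real.log 2 := by
        rw [show (4 : ℝ) = 2 ^ 2 by norm_num, Real.log_pow]
        norm_num
      rw [h7]
      linarith
    linarith
  have hlogYL : Real.log Y ≤ L := by
    apply Real.log_le_log (by linarith)
    have : Y ≤ x := by nlinarith
    exact_mod_cast this
  have hsmall := hshort (oA x) Y Y (Real.log Y) l hl0 le_rfl (by linarith) (by omega) le_rfl (by
    have h1 : ε₂ * L * 4 ≤ (1 - θ) * (L / 2) := by nlinarith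
    have h2 : (1 - θ) * (L / 2 - 4) ≤ (1 - θ) * Real.log Y := mul_le_mul_of_nonneg_left hlogY (by linarith)
    nlinarith)
  have hsmallpos : (0 : ℝ) < cI (oA x) Y Y := lt_of_lt_of_le (mul_pos (by linarith) (Real.exp_pos _)) hsmall
  have hsmallpos' : 0 < cI (oA x) Y Y := by exact_mod_cast hsmallpos
  obtain ⟨p, hp⟩ := card_pos.1 hsmallpos'
  rw [mem_filter, mem_Ioc] at hp
  obtain ⟨⟨hp1, hp2⟩, hp3⟩ := hp
  have hpp := PI_prime hp3
  have hpodd : p % 2 = 1 := by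
    rcases hpp.eq_two_or_odd with h | h
    · omega
    · exact h
  have hpsq : p ≤ Nat.sqrt x := by omega
  have hsqx4 : 4 * Nat.sqrt x ≤ x := by nlinarith
  -- the large primes
  have hH0 : (0 : ℝ) < H := lt_of_lt_of_le (Real.rpow_pos_of_pos hx0 _) hH1
  have hH0' : 1 ≤ H := by
    have : 0 < H := by exact_mod_cast hH0
    omega
  have hlogH : (θ + ε) * L ≤ Real.log H := by
    have h1 := Real.log_le_log (Real.rpow_pos_of_pos hx0 _) hH1
    rwa [Real.log_rpow hx0] at h1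
  obtain ⟨X, hX⟩ : ∃ X, X = 2 * x - H - p := ⟨_, rfl⟩
  have hXp : X + H + p = 2 * x := by omega
  have hXr : (1 : ℝ) ≤ X := by
    have : 1 ≤ X := by omega
    exact_mod_cast this
  have hlogX : Real.log X ≤ L + 1 := by
    have h1 : (X : ℝ) ≤ 2 * x := by
      have : X ≤ 2 * x := by omega
      exact_mod_cast this
    have h2 := Real.log_le_log (by linarith) h1
    rw [Real.log_mul (by norm_num) hx0.ne'] at h2
    linarith
  have hbig := hshort (oB x) X H (L + 1) l hl0 hlogX (by linarith) hH0' (by omega) (by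
    have h1 : ε₂ * L ≤ ε * L := mul_le_mul_of_nonneg_right (by linarith) (by linarith)
    have h2 : θ * (L + 1) ≤ θ * L + 1 := by nlinarith
    have h3 : (oB x : ℝ) * (l + κ) ≤ ((oB x : ℝ) + 1) * (l + κ) := mul_le_mul_of_nonneg_right (by linarith) hlκ
    nlinarith)
  -- the map
  have hfin : {n : ℕ | x < n + H ∧ n ≤ x ∧ ∀ a b : ℕ, f2 a b ≤ n → Rep a b (2 * n)}.Finite :=
    (Set.finite_Iic x).subset (fun n hn => hn.2.1)
  set Q := (Ioc X (X + H)).filter (fun q => PI (oB x) q) with hQ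
  have hQodd : ∀ q ∈ Q, q % 2 = 1 ∧ X < q ∧ q ≤ X + H ∧ PI (oB x) q := by
    intro q hq
    rw [hQ, mem_filter, mem_Ioc] at hq
    have h6 := PI_prime hq.2
    rcases h6.eq_two_or_odd with h | h
    · omega
    · exact ⟨h, hq.1.1, hq.1.2, hq.2⟩
  have hTc : (Q.image (fun q => (p + q) / 2)).card = Q.card := by
    apply card_image_of_injOn
    intro q hq q' hq' h
    rw [mem_coe] at hq hq'
    have h6 := hQodd q hq
    have h7 := hQodd q' hq'
    simp only at h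
    omega
  have hsub : ((Q.image (fun q => (p + q) / 2) : Finset ℕ) : Set ℕ) ⊆
      {n : ℕ | x < n + H ∧ n ≤ x ∧ ∀ a b : ℕ, f2 a b ≤ n → Rep a b (2 * n)} := by
    intro n hn
    rw [mem_coe] at hn
    obtain ⟨q, hq, rfl⟩ := mem_image.1 hn
    obtain ⟨q1, q2, q3, q4⟩ := hQodd q hq
    have hnx : (p + q) / 2 ≤ x := by omega
    exact ⟨by omega, hnx, types hnx hp3 q4 (by omega) (by omega)⟩
  have h6 := Set.ncard_le_ncard hsub hfin
  rw [Set.ncard_coe_finset, hTc] at h6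
  have h7 : (cI (oB x) X H : ℝ) ≤ Set.ncard {n : ℕ | x < n + H ∧ n ≤ x ∧ ∀ a b : ℕ, f2 a b ≤ n → Rep a b (2 * n)} := by
    exact_mod_cast h6
  refine le_trans ?_ (hbig.trans h7)
  apply mul_le_mul_of_nonneg_left _ hH0.le
  exact Real.exp_le_exp.2 (by linarith)

/-- **One integer in very short intervals** -/
theorem one {θ : ℝ} (h : Hoh θ) {ε : ℝ} (hε : 0 < ε) : ∀ᶠ x : ℕ in atTop, ∀ H : ℕ, (x : ℝ) ^ (θ ^ 2 + ε) ≤ H →
    ∃ n : ℕ, x < n + H ∧ n ≤ x ∧ ∀ a b : ℕ, f2 a b ≤ n → Rep a b (2 * n) := by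
  classical
  obtain ⟨κ, c₀, hκ, hc₀, hshort⟩ := short h
  obtain ⟨hθ0, hθ1, -⟩ := h
  -- a small `ε`
  obtain ⟨e, he⟩ : ∃ e, e = min ε (θ * (1 - θ)) := ⟨_, rfl⟩
  have hθθ : 0 < θ * (1 - θ) := mul_pos hθ0 (by linarith)
  have he0 : 0 < e := by rw [he]; exact lt_min hε hθθ
  have heε : e ≤ ε := by rw [he]; exact min_le_left _ _
  have heθ : e ≤ θ * (1 - θ) := by rw [he]; exact min_le_right _ _
  have he1 : e ≤ 1 := by nlinarith
  have hgap : 0 < 1 - (θ + e / 2) := by nlinarith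
  set ε₂ : ℝ := min (e / 4) (1 - (θ + e / 2)) / 2 with hε₂
  have hε₂0 : 0 < ε₂ := by
    have : 0 < min (e / 4) (1 - (θ + e / 2)) := lt_min (by positivity) hgap
    positivity
  have hε₂e : 8 * ε₂ ≤ e := by
    have : min (e / 4) (1 - (θ + e / 2)) ≤ e / 4 := min_le_left _ _
    rw [hε₂]
    linarith
  have hε₂θ : 2 * ε₂ ≤ 1 - (θ + e / 2) := by
    have : min (e / 4) (1 - (θ + e / 2)) ≤ 1 - (θ + e / 2) := min_le_right _ _
    rw [hε₂]
    linarith
  filter_upwards [setup κ c₀ ε₂ hκ hc₀ hε₂0 (by linarith)] with x hx H hH1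
  obtain ⟨hx16, hL100, l, hl0, hl1, hA, hB, hBfin⟩ := hx
  set L := Real.log (x : ℝ) with hL
  have hx0 : (0 : ℝ) < x := by exact_mod_cast (by omega : 0 < x)
  have hx1 : (1 : ℝ) ≤ x := by exact_mod_cast (by omega : 1 ≤ x)
  have hlκ : 0 ≤ l + κ := by linarith
  have hA0 : (0 : ℝ) ≤ oA x := Nat.cast_nonneg _
  have hB0 : (0 : ℝ) ≤ oB x := Nat.cast_nonneg _
  have hAl : 0 ≤ ((oA x : ℝ) + 1) * (l + κ) := by positivity
  have hBl : 0 ≤ ((oB x : ℝ) + 1) * (l + κ) := by positivity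
  have hε₂L : 10 ≤ ε₂ * L := by linarith
  have hlog2 : Real.log 2 ≤ 1 := by
    have := Real.log_two_lt_d9
    linarith
  have hexp2 : 2 ≤ Real.exp 1 := by
    have := Real.add_one_le_exp (1 : ℝ)
    linarith
  have hexp10 : (10 : ℝ) ≤ Real.exp 10 := by
    have := Real.add_one_le_exp (10 : ℝ)
    linarith
  have hpow : ∀ s : ℝ, (x : ℝ) ^ s = Real.exp (s * L) := by
    intro s
    rw [Real.rpow_def_of_pos hx0, mul_comm]
  -- the two lengths
  obtain ⟨Y, hY⟩ : ∃ Y, Y = ⌈(x : ℝ) ^ (θ + e / 2)⌉₊ := ⟨_, rfl⟩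
  obtain ⟨K, hK⟩ : ∃ K, K = ⌈(x : ℝ) ^ (θ ^ 2 + e)⌉₊ := ⟨_, rfl⟩
  have hKH : K ≤ H := by
    rw [hK]
    apply Nat.ceil_le.2
    refine le_trans ?_ hH1
    exact Real.rpow_le_rpow_of_exponent_le hx1 (by linarith)
  have hYge : (x : ℝ) ^ (θ + e / 2) ≤ Y := by rw [hY]; exact Nat.le_ceil _
  have hYle : (Y : ℝ) ≤ 2 * (x : ℝ) ^ (θ + e / 2) := by
    have h1 : (Y : ℝ) < (x : ℝ) ^ (θ + e / 2) + 1 := by
      rw [hY]
      exact Nat.ceil_lt_add_one (Real.rpow_nonneg hx0.le _)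
    have h2 : 1 ≤ (x : ℝ) ^ (θ + e / 2) := Real.one_le_rpow hx1 (by linarith)
    linarith
  have hKge : (x : ℝ) ^ (θ ^ 2 + e) ≤ K := by rw [hK]; exact Nat.le_ceil _
  have hKle : (K : ℝ) ≤ 2 * (x : ℝ) ^ (θ ^ 2 + e) := by
    have h1 : (K : ℝ) < (x : ℝ) ^ (θ ^ 2 + e) + 1 := by
      rw [hK]
      exact Nat.ceil_lt_add_one (Real.rpow_nonneg hx0.le _)
    have h2 : 1 ≤ (x : ℝ) ^ (θ ^ 2 + e) := Real.one_le_rpow hx1 (by positivity)
    linarith
  have hlogY : (θ + e / 2) * L ≤ Real.log Y := by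
    have h1 := Real.log_le_log (Real.rpow_pos_of_pos hx0 _) hYge
    rwa [Real.log_rpow hx0] at h1
  have hlogK : (θ ^ 2 + e) * L ≤ Real.log K := by
    have h1 := Real.log_le_log (Real.rpow_pos_of_pos hx0 _) hKge
    rwa [Real.log_rpow hx0] at h1
  have hYx : 8 * Y ≤ x := by
    have h1 : (8 : ℝ) * Y ≤ x := by
      have h2 : (16 : ℝ) * (x : ℝ) ^ (θ + e / 2) ≤ x := by
        have h3 : (x : ℝ) = Real.exp L := (Real.exp_log hx0).symm
        rw [hpow]
        calc (16 : ℝ) * Real.exp ((θ + e / 2) * L) ≤ (Real.exp 10 * Real.exp 10) * Real.exp ((θ + e / 2) * L) := by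
              have : (16 : ℝ) ≤ Real.exp 10 * Real.exp 10 := by nlinarith
              gcongr
          _ = Real.exp (10 + 10 + (θ + e / 2) * L) := by rw [Real.exp_add, Real.exp_add]
          _ ≤ Real.exp L := by
              apply Real.exp_le_exp.2
              have h4 : (2 * ε₂) * L ≤ (1 - (θ + e / 2)) * L := mul_le_mul_of_nonneg_right hε₂θ (by linarith)
              nlinarith
          _ = x := h3.symm
      linarith
    exact_mod_cast h1
  have hKY : 2 * K ≤ Y := by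
    have h1 : (2 : ℝ) * K ≤ Y := by
      have h2 : (4 : ℝ) * (x : ℝ) ^ (θ ^ 2 + e) ≤ (x : ℝ) ^ (θ + e / 2) := by
        rw [hpow, hpow]
        calc (4 : ℝ) * Real.exp ((θ ^ 2 + e) * L) ≤ Real.exp 10 * Real.exp ((θ ^ 2 + e) * L) := by
              have : (4 : ℝ) ≤ Real.exp 10 := by linarith
              gcongr
          _ = Real.exp (10 + (θ ^ 2 + e) * L) := by rw [Real.exp_add]
          _ ≤ Real.exp ((θ + e / 2) * L) := by
              apply Real.exp_le_exp.2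
              have h3 : θ ^ 2 + e + e / 2 ≤ θ + e / 2 + e / 2 := by nlinarith
              have h4 : (θ ^ 2 + e + e / 2) * L ≤ (θ + e / 2 + e / 2) * L := mul_le_mul_of_nonneg_right h3 (by linarith)
              have h5 : (8 * ε₂) * L ≤ e * L := mul_le_mul_of_nonneg_right hε₂e (by linarith)
              have h6 : e ≤ θ - θ ^ 2 := by nlinarith
              have h7 : e * L ≤ (θ - θ ^ 2) * L := mul_le_mul_of_nonneg_right h6 (by linarith)
              nlinarith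
      linarith
    exact_mod_cast h1
  have hKr : (10 : ℝ) ≤ K := by
    refine le_trans ?_ hKge
    rw [hpow]
    refine hexp10.trans (Real.exp_le_exp.2 ?_)
    have h3 : (8 * ε₂) * L ≤ e * L := mul_le_mul_of_nonneg_right hε₂e (by linarith)
    have h4 : 0 ≤ θ ^ 2 * L := by positivity
    nlinarith
  have hK10 : 10 ≤ K := by exact_mod_cast hKr
  -- the large prime
  obtain ⟨X, hX⟩ : ∃ X, X = 2 * x - 2 * Y := ⟨_, rfl⟩
  have hXY : X + 2 * Y = 2 * x := by omega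
  have hXr : (1 : ℝ) ≤ X := by
    have : 1 ≤ X := by omega
    exact_mod_cast this
  have hlogX : Real.log X ≤ L + 1 := by
    have h1 : (X : ℝ) ≤ 2 * x := by
      have : X ≤ 2 * x := by omega
      exact_mod_cast this
    have h2 := Real.log_le_log (by linarith) h1
    rw [Real.log_mul (by norm_num) hx0.ne'] at h2
    linarith
  have heL : (8 * ε₂) * L ≤ e * L := mul_le_mul_of_nonneg_right hε₂e (by linarith)
  have hbig := hshort (oA x) X Y (L + 1) l hl0 hlogX (by linarith) (by omega) (by omega) (by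
    have h2 : θ * (L + 1) ≤ θ * L + 1 := by nlinarith
    have h3 : (oA x : ℝ) * (l + κ) ≤ ((oA x : ℝ) + 1) * (l + κ) := mul_le_mul_of_nonneg_right (by linarith) hlκ
    nlinarith)
  have hY0 : (0 : ℝ) < Y := lt_of_lt_of_le (Real.rpow_pos_of_pos hx0 _) hYge
  have hbigpos : (0 : ℝ) < cI (oA x) X Y := lt_of_lt_of_le (mul_pos hY0 (Real.exp_pos _)) hbig
  have hbigpos' : 0 < cI (oA x) X Y := by exact_mod_cast hbigpos
  obtain ⟨P, hP⟩ := card_pos.1 hbigpos'
  rw [mem_filter, mem_Ioc] at hP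
  obtain ⟨⟨hP1, hP2⟩, hP3⟩ := hP
  have hPodd : P % 2 = 1 := by
    rcases (PI_prime hP3).eq_two_or_odd with h | h
    · omega
    · exact h
  -- the small prime
  obtain ⟨R, hR⟩ : ∃ R, R = 2 * x - P - K := ⟨_, rfl⟩
  have hRP : R + P + K = 2 * x := by omega
  have hRr : (1 : ℝ) ≤ R := by
    have : 1 ≤ R := by omega
    exact_mod_cast this
  have hlogR : Real.log R ≤ (θ + e / 2) * L + 2 := by
    have h1 : (R : ℝ) ≤ 2 * Y := by
      have : R ≤ 2 * Y := by omega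
      exact_mod_cast this
    have h2 : (R : ℝ) ≤ Real.exp 1 * Real.exp 1 * (x : ℝ) ^ (θ + e / 2) := by
      have h3 : (4 : ℝ) ≤ Real.exp 1 * Real.exp 1 := by nlinarith
      have h4 : (0 : ℝ) ≤ (x : ℝ) ^ (θ + e / 2) := Real.rpow_nonneg hx0.le _
      nlinarith
    have h3 := Real.log_le_log (by linarith) h2
    rw [hpow, ← Real.exp_add, ← Real.exp_add, Real.log_exp] at h3
    linarith
  have hsm := hshort (oB x) R K ((θ + e / 2) * L + 2) l hl0 hlogR (by
    have h1 : (θ + e / 2) * L ≤ 1 * L := mul_le_mul_of_nonneg_right (by linarith) (by linarith)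
    linarith) (by omega) (by omega) (by
    have h2 : θ * ((θ + e / 2) * L + 2) ≤ θ ^ 2 * L + e / 2 * L + 2 := by
      have h3 : 0 ≤ e / 2 * L := by positivity
      have h4 : θ * (e / 2 * L) ≤ 1 * (e / 2 * L) := mul_le_mul_of_nonneg_right hθ1.le h3
      nlinarith
    have h3 : (oB x : ℝ) * (l + κ) ≤ ((oB x : ℝ) + 1) * (l + κ) := mul_le_mul_of_nonneg_right (by linarith) hlκ
    nlinarith)
  have hsmpos : (0 : ℝ) < cI (oB x) R K := lt_of_lt_of_le (mul_pos (by linarith) (Real.exp_pos _)) hsm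
  have hsmpos' : 0 < cI (oB x) R K := by exact_mod_cast hsmpos
  obtain ⟨q, hq⟩ := card_pos.1 hsmpos'
  rw [mem_filter, mem_Ioc] at hq
  obtain ⟨⟨hq1, hq2⟩, hq3⟩ := hq
  have hqodd : q % 2 = 1 := by
    rcases (PI_prime hq3).eq_two_or_odd with h | h
    · omega
    · exact h
  have hn : (P + q) / 2 ≤ x := by omega
  exact ⟨(P + q) / 2, by omega, hn, types hn hP3 hq3 (by omega) (by omega)⟩

end Pool.Agent.L5helper7.IP
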