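import Pool.Agent.Y886.UTD
import Pool.Agent.H295R3.Hoheisel

/-!
# Iterated primes in short intervals, uniformly in the number of the iterations
-/

set_option autoImplicit false

open Finset Filter Topology

namespace Pool.Agent.L5helper7.IP

open Pool.Agent.H197R2.PG (PI)
open Pool.Agent.TH665.GP (PI_prime)

/-- the intervals `(X, X + Y]` with `X ^ θ ≤ Y ≤ X` contain the expected number of primes, up to a constant factor -/
def Hoh (θ : ℝ) : Prop := 0 < θ ∧ θ < 1 ∧ ∃ η : ℝ, 0 < η ∧ ∃ X₀ : ℕ, ∀ X Y : ℕ, X₀ ≤ X → (X : ℝ) ^ θ ≤ Y → Y ≤ X →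
  η * Y / Real.log X ≤ (((Ioc X (X + Y)).filter Nat.Prime).card : ℝ)

theorem hoh_exists : ∃ θ : ℝ, Hoh θ := by
  obtain ⟨δ, η, hδ, hδ1, hη, X₀, -, h⟩ := Pool.Agent.H295R3.D.hoheisel
  exact ⟨1 - δ, by linarith, by linarith, η, hη, X₀, h⟩

lemma pi_add (X Y : ℕ) : Nat.primeCounting X + ((Ioc X (X + Y)).filter Nat.Prime).card = Nat.primeCounting (X + Y) := by
  have e : ∀ n, Nat.primeCounting n = ((range (n + 1)).filter Nat.Prime).card := by
    intro n
    rw [Nat.primeCounting, Nat.primeCounting', Nat.count_eq_card_filter_range]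
  rw [e, e, ← card_union_of_disjoint]
  · congr 1
    ext p
    simp only [mem_union, mem_filter, mem_range, mem_Ioc]
    constructor
    · rintro (⟨h1, h2⟩ | ⟨h1, h2⟩)
      · exact ⟨by omega, h2⟩
      · exact ⟨by omega, h2⟩
    · rintro ⟨h1, h2⟩
      rcases Nat.lt_or_ge X p with h | h
      · exact Or.inr ⟨by omega, h2⟩
      · exact Or.inl ⟨by omega, h2⟩
  · rw [disjoint_left]
    intro p hp hp'
    rw [mem_filter, mem_range] at hp
    rw [mem_filter, mem_Ioc] at hp'
    omega

lemma pi_nth {m : ℕ} (hm : 1 ≤ m) : Nat.primeCounting (Nat.nth Nat.Prime (m - 1)) = m := by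
  rw [Nat.primeCounting, Nat.primeCounting', Nat.count_succ, ← Nat.primeCounting',
    Nat.primeCounting'_nth_eq, if_pos (Nat.prime_nth_prime _)]
  omega

open Classical in
/-- the number of the `a`-primes in `(X, X + Y]` -/
noncomputable def cI (a X Y : ℕ) : ℕ := ((Ioc X (X + Y)).filter (fun p => PI a p)).card

/-- passing to the indices -/
lemma cI_succ (a X Y W : ℕ) (hW : W ≤ ((Ioc X (X + Y)).filter Nat.Prime).card) :
    cI a (Nat.primeCounting X) W ≤ cI (a + 1) X Y := by
  classical
  unfold cI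
  have hadd := pi_add X Y
  refine card_le_card_of_injOn (fun m => Nat.nth Nat.Prime (m - 1)) ?_ ?_
  · intro m hm
    rw [mem_coe, mem_filter, mem_Ioc] at hm
    have hm1 : 1 ≤ m := by omega
    have hp := pi_nth hm1
    rw [mem_coe, mem_filter, mem_Ioc]
    refine ⟨⟨?_, ?_⟩, ?_⟩
    · by_contra hcon
      push Not at hcon
      have := Nat.monotone_primeCounting hcon
      omega
    · have h5 : m - 1 < Nat.count Nat.Prime (X + Y + 1) := by
        have : Nat.primeCounting (X + Y) = Nat.count Nat.Prime (X + Y + 1) := rfl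
        omega
      have h6 := Nat.nth_lt_of_lt_count h5
      change Nat.nth Nat.Prime (m - 1) ≤ X + Y
      omega
    · intro j hj
      rcases j with _ | j
      · exact Nat.prime_nth_prime _
      · rw [Function.iterate_succ_apply, hp]
        exact hm.2 j (by omega)
  · intro m hm m' hm' h
    rw [mem_coe, mem_filter, mem_Ioc] at hm hm'
    simp only at h
    rw [← pi_nth (show 1 ≤ m by omega), ← pi_nth (show 1 ≤ m' by omega), h]

lemma cI_zero (X Y : ℕ) : cI 0 X Y = ((Ioc X (X + Y)).filter Nat.Prime).card := by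
  classical
  unfold cI
  congr 1
  apply filter_congr
  intro p _
  constructor
  · intro h
    exact PI_prime h
  · intro h j hj
    have : j = 0 := by omega
    subst this
    exact h

/-- **Iterated primes in short intervals** -/
theorem short {θ : ℝ} (h : Hoh θ) : ∃ κ c₀ : ℝ, 0 ≤ κ ∧ 0 ≤ c₀ ∧ ∀ (a X Y : ℕ) (L l : ℝ), 0 ≤ l → Real.log X ≤ L →
    L ≤ Real.exp l → 1 ≤ Y → Y ≤ X → θ * L + a * (l + κ) + c₀ ≤ Real.log Y →
    (Y : ℝ) * Real.exp (-(((a : ℝ) + 1) * (l + κ))) ≤ cI a X Y := by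
  obtain ⟨hθ0, hθ1, η, hη, X₀, hX⟩ := h
  obtain ⟨c, hc, hc4, hch⟩ := Pool.Agent.Y886.UT.cheb
  obtain ⟨c', hc'⟩ : ∃ c', c' = min η c := ⟨_, rfl⟩
  have hc'0 : 0 < c' := by rw [hc']; exact lt_min hη hc
  have hc'1 : c' ≤ 1 := by rw [hc']; exact (min_le_right _ _).trans (by linarith)
  have hc'η : c' ≤ η := by rw [hc']; exact min_le_left _ _
  have hc'c : c' ≤ c := by rw [hc']; exact min_le_right _ _
  obtain ⟨κ, hκ⟩ : ∃ κ, κ = -Real.log c' := ⟨_, rfl⟩
  have hκ0 : 0 ≤ κ := by
    rw [hκ]
    have := Real.log_nonpos hc'0.le hc'1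
    linarith
  have hexpκ : Real.exp (-κ) = c' := by
    rw [hκ, neg_neg, Real.exp_log hc'0]
  refine ⟨κ, Real.log (X₀ + 3), hκ0, Real.log_nonneg (by
    have : (0 : ℝ) ≤ X₀ := Nat.cast_nonneg _
    linarith), ?_⟩
  -- one step
  have hstep : ∀ (X Y : ℕ) (L l : ℝ), 0 ≤ l → Real.log X ≤ L → L ≤ Real.exp l → 1 ≤ Y → Y ≤ X →
      θ * L + Real.log (X₀ + 3) ≤ Real.log Y →
      (Y : ℝ) * Real.exp (-(l + κ)) ≤ (((Ioc X (X + Y)).filter Nat.Prime).card : ℝ) ∧
      (Y : ℝ) * Real.exp (-(l + κ)) ≤ Nat.primeCounting X := by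
    intro X Y L l hl hL1 hL2 hY1 hYX hcond
    have hYr : (1 : ℝ) ≤ Y := by exact_mod_cast hY1
    have hXY : (Y : ℝ) ≤ X := by exact_mod_cast hYX
    have hlogX : 0 ≤ Real.log X := Real.log_nonneg (by linarith)
    have hlogYX : Real.log Y ≤ Real.log X := Real.log_le_log (by linarith) hXY
    have hθL : 0 ≤ θ * L := mul_nonneg hθ0.le (by linarith)
    have hX3 : (X₀ : ℝ) + 3 ≤ X := by
      have h1 : Real.log (X₀ + 3) ≤ Real.log X := by linarith
      exact (Real.log_le_log_iff (by positivity) (by linarith)).1 h1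
    have hX3' : X₀ + 3 ≤ X := by exact_mod_cast hX3
    have hXr : (3 : ℝ) ≤ X := by
      have : (0 : ℝ) ≤ X₀ := Nat.cast_nonneg _
      linarith
    have hlogX1 : 0 < Real.log X := Real.log_pos (by linarith)
    have hpow : (X : ℝ) ^ θ ≤ Y := by
      rw [Real.rpow_def_of_pos (by linarith)]
      calc Real.exp (Real.log X * θ) ≤ Real.exp (Real.log Y) := by
            apply Real.exp_le_exp.2
            have h1 : Real.log X * θ ≤ θ * L := by
              rw [mul_comm]
              exact mul_le_mul_of_nonneg_left hL1 hθ0.le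
            have h2 : 0 ≤ Real.log ((X₀ : ℝ) + 3) := Real.log_nonneg (by
              have : (0 : ℝ) ≤ X₀ := Nat.cast_nonneg _
              linarith)
            linarith
        _ = Y := Real.exp_log (by linarith)
    have hE : Real.exp (-(l + κ)) = c' / Real.exp l := by
      rw [neg_add, Real.exp_add, hexpκ, Real.exp_neg]
      ring
    have hlogXl : Real.log X ≤ Real.exp l := hL1.trans hL2
    have hfrac : ∀ d : ℝ, c' ≤ d → (Y : ℝ) * Real.exp (-(l + κ)) ≤ d * Y / Real.log X := by
      intro d hd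
      rw [hE, ← mul_div_assoc, mul_comm (Y : ℝ) c']
      apply div_le_div₀ (mul_nonneg (by linarith) (by linarith))
        (mul_le_mul_of_nonneg_right hd (by linarith)) hlogX1 hlogXl
    constructor
    · exact (hfrac η hc'η).trans (hX X Y (by omega) hpow hYX)
    · refine (hfrac c hc'c).trans ?_
      rw [div_le_iff₀ hlogX1]
      have h1 := hch X (by omega)
      nlinarith
  intro a
  induction a with
  | zero =>
    intro X Y L l hl hL1 hL2 hY1 hYX hcond
    rw [cI_zero]
    have h1 := (hstep X Y L l hl hL1 hL2 hY1 hYX (by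
      have : ((0 : ℕ) : ℝ) * (l + κ) = 0 := by simp
      linarith)).1
    simpa using h1
  | succ a ih =>
    intro X Y L l hl hL1 hL2 hY1 hYX hcond
    have hYr : (1 : ℝ) ≤ Y := by exact_mod_cast hY1
    have hlκ : 0 ≤ l + κ := by linarith
    have hacond : 0 ≤ (a : ℝ) * (l + κ) := mul_nonneg (Nat.cast_nonneg _) hlκ
    push_cast at hcond
    obtain ⟨h1, h2⟩ := hstep X Y L l hl hL1 hL2 hY1 hYX (by nlinarith)
    set W : ℕ := min ((Ioc X (X + Y)).filter Nat.Prime).card (Nat.primeCounting X) with hW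
    have hW1 : (Y : ℝ) * Real.exp (-(l + κ)) ≤ W := by
      rw [hW]
      push_cast
      exact le_min h1 h2
    have hWpos : (0 : ℝ) < W := lt_of_lt_of_le (mul_pos (by linarith) (Real.exp_pos _)) hW1
    have hWpos' : 1 ≤ W := by
      have : 0 < W := by exact_mod_cast hWpos
      omega
    have hlogW : Real.log Y - (l + κ) ≤ Real.log W := by
      have h3 := Real.log_le_log (mul_pos (by linarith) (Real.exp_pos _)) hW1
      rw [Real.log_mul (by linarith) (Real.exp_pos _).ne', Real.log_exp] at h3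
      linarith
    have hπX : Nat.primeCounting X ≤ X := Pool.Agent.H197R2.PG.pi_le_self X
    have hπ1 : 1 ≤ Nat.primeCounting X := hWpos'.trans (min_le_right _ _)
    have hlogπ : Real.log (Nat.primeCounting X) ≤ L := by
      refine le_trans (Real.log_le_log (by exact_mod_cast hπ1) ?_) hL1
      exact_mod_cast hπX
    have h3 := ih (Nat.primeCounting X) W L l hl hlogπ hL2 hWpos' (min_le_right _ _) (by nlinarith)
    have h4 : (cI a (Nat.primeCounting X) W : ℝ) ≤ cI (a + 1) X Y := by
      exact_mod_cast cI_succ a X Y W (min_le_left _ _)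
    refine le_trans ?_ (h3.trans h4)
    push_cast
    have e : Real.exp (-(((a : ℝ) + 1 + 1) * (l + κ))) = Real.exp (-(l + κ)) * Real.exp (-(((a : ℝ) + 1) * (l + κ))) := by
      rw [← Real.exp_add]
      congr 1
      ring
    rw [e, ← mul_assoc]
    exact mul_le_mul_of_nonneg_right hW1 (Real.exp_pos _).le

end Pool.Agent.L5helper7.IP
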